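import Pool.Agent.X266.EPC.Ind

/-!
# MP_43a9c1_co: edge-pancyclic graphs with `(75/38 + o(1)) n` edges

For every `m` there is an edge-pancyclic graph with `38 m + 16` vertices and at most `75 m + 68` edges. So it is
not true that every edge-pancyclic graph with `n` vertices has at least `2 n - o(n)` edges.

The graph is a ladder with `m` columns between two caps (complete graphs with 9 vertices without two
disjoint edges). A column has `40` vertices, of which two are also in the next column, and `75` edges; it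
consists of three double fans with `14` vertices and `25 = 2 * 14 - 3` edges each: the top and the bottom, which have one
vertex in common (a hub of both), and a rail from the top to the top of the next column; the bottoms of two
neighbouring columns have a vertex in common.
-/

set_option autoImplicit false

namespace Pool.Agent.Results.MP_43a9c1_co.ColumnLadder

open Pool.Agent.X266.EPC

/-- `e` is an edge of a cycle of length `k` of `G` (for `k ≥ 3`): a closed walk
`f 0, f 1, …, f k = f 0` with `f 0, …, f (k - 1)` distinct, of which `e` is a step. -/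
def InCycle {V : Type} (G : SimpleGraph V) (k : ℕ) (e : Sym2 V) : Prop :=
  ∃ f : ℕ → V, Set.InjOn f (Set.Iio k) ∧ f k = f 0 ∧ (∀ j < k, G.Adj (f j) (f (j + 1))) ∧
    ∃ j < k, s(f j, f (j + 1)) = e

/-- `G` has an edge, and every edge of `G` is in a cycle of length `k` for every `3 ≤ k ≤ n`, where `n` is
the number of vertices. -/
def EdgePancyclic {V : Type} [Fintype V] (G : SimpleGraph V) : Prop :=
  G.edgeSet.Nonempty ∧ ∀ e ∈ G.edgeSet, ∀ k, 3 ≤ k → k ≤ Fintype.card V → InCycle G k e

/-- the statement asked about: `e(G) ≥ 2 n - o(n)` for the edge-pancyclic graphs -/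
def Q1 : Prop :=
  ∀ ε : ℝ, 0 < ε → ∃ n₀ : ℕ, ∀ (V : Type) (_ : Fintype V) (G : SimpleGraph V),
    n₀ ≤ Fintype.card V → EdgePancyclic G →
      (2 - ε) * (Fintype.card V : ℝ) ≤ (G.edgeSet.ncard : ℝ)

/-- the minimum number of edges of an edge-pancyclic graph with `n` vertices -/
noncomputable def f (n : ℕ) : ℕ :=
  sInf {k | ∃ G : SimpleGraph (Fin n), EdgePancyclic G ∧ G.edgeSet.ncard = k}

/-- the edges of the ladder with `m` columns -/
def E (m p q : ℕ) : Prop := HEdge m p q ∨ ∃ e ∈ EC, p = o m + e.1 ∧ q = o m + e.2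

/-- adjacency in the ladder -/
def A (m p q : ℕ) : Prop := p ≠ q ∧ (E m p q ∨ E m q p)

/-- the ladder with `m` columns -/
def Gr (m : ℕ) : SimpleGraph (Fin (38 * m + 16)) :=
  SimpleGraph.fromRel fun p q => E m p q

theorem aK_spec {a b : ℕ} (h : aK a b = true) : a ≠ b ∧ ((a, b) ∈ EK ∨ (b, a) ∈ EK) := by
  have h' := h
  unfold aK at h'
  rw [Bool.and_eq_true, Bool.and_eq_true] at h'
  have h1 := all_range (all_range aK_check (Nat.le_of_ble_eq_true h'.1.1))
    (Nat.le_of_ble_eq_true h'.1.2)
  rw [h] at h1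
  simpa using h1

theorem aC_spec {a b : ℕ} (h : aC a b = true) : a ≠ b ∧ ((a, b) ∈ EC ∨ (b, a) ∈ EC) := by
  have h' := h
  unfold aC at h'
  rw [Bool.and_eq_true, Bool.and_eq_true] at h'
  have h1 := all_range (all_range aC_check (Nat.le_of_ble_eq_true h'.1.1))
    (Nat.le_of_ble_eq_true h'.1.2)
  rw [h] at h1
  simpa using h1

theorem hR (m : ℕ) : ∀ a b, aC a b = true → A m a b := by
  intro a b h
  obtain ⟨h1, h2⟩ := aC_spec h
  exact ⟨h1, h2.imp (fun h => Or.inl (Or.inl ⟨_, h, rfl, rfl⟩))
    (fun h => Or.inl (Or.inl ⟨_, h, rfl, rfl⟩))⟩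

theorem hK (m : ℕ) : ∀ c < m, ∀ a b, aK a b = true → A m (o c + a) (o c + b) := by
  intro c hc a b h
  obtain ⟨h1, h2⟩ := aK_spec h
  exact ⟨by omega, h2.imp (fun h => Or.inl (Or.inr ⟨c, hc, _, h, rfl, rfl⟩))
    (fun h => Or.inl (Or.inr ⟨c, hc, _, h, rfl, rfl⟩))⟩

theorem hL (m : ℕ) : ∀ a b, aC a b = true → A m (o m + a) (o m + b) := by
  intro a b h
  obtain ⟨h1, h2⟩ := aC_spec h
  exact ⟨by omega, h2.imp (fun h => Or.inr ⟨_, h, rfl, rfl⟩) (fun h => Or.inr ⟨_, h, rfl, rfl⟩)⟩

theorem inCycle {m L p q : ℕ} (hL3 : 3 ≤ L) (h : Cyc (A m) (o m + 9) L (HasE p q)) :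
    InCycle (Gr m) L s(Fin.ofNat (38 * m + 16) p, Fin.ofNat (38 * m + 16) q) := by
  obtain ⟨l, h1, h2, h3, h4, h5⟩ := h
  have hn : o m + 9 = 38 * m + 16 := by unfold o; ring
  rw [hn] at h2
  have hlen : (l ++ l.take 1).length = L + 1 := by
    rw [List.length_append, List.length_take]
    omega
  have hb : ∀ j, (l ++ l.take 1).getD j 0 < 38 * m + 16 := by
    intro j
    by_cases hj : j < (l ++ l.take 1).length
    · rw [List.getD_eq_getElem _ _ hj]
      have := List.getElem_mem hj
      rw [List.mem_append] at this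
      rcases this with h | h
      · exact h2 _ h
      · exact h2 _ (List.mem_of_mem_take h)
    · rw [List.getD_eq_default _ _ (by omega)]
      omega
  have hv : ∀ j, (Fin.ofNat (38 * m + 16) ((l ++ l.take 1).getD j 0)).val =
      (l ++ l.take 1).getD j 0 := by
    intro j
    exact Nat.mod_eq_of_lt (hb j)
  refine ⟨fun j => Fin.ofNat (38 * m + 16) ((l ++ l.take 1).getD j 0), ?_, ?_, ?_, ?_⟩
  · intro x hx y hy hxy
    have hx' : x < l.length := by rw [h3]; exact hx
    have hy' : y < l.length := by rw [h3]; exact hy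
    have h6 := congrArg Fin.val hxy
    rw [hv, hv, List.getD_append _ _ _ _ hx', List.getD_append _ _ _ _ hy',
      List.getD_eq_getElem _ _ hx', List.getD_eq_getElem _ _ hy'] at h6
    exact (List.Nodup.getElem_inj_iff h1).1 h6
  · show Fin.ofNat _ ((l ++ l.take 1).getD L 0) = Fin.ofNat _ ((l ++ l.take 1).getD 0 0)
    congr 1
    rw [List.getD_append_right _ _ _ _ (by omega), List.getD_append _ _ _ _ (by omega), h3,
      Nat.sub_self]
    cases l with
    | nil => simp at h3; omega
    | cons a l => rfl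
  · intro j hj
    have h6 := (List.isChain_iff_getElem.1 h4) j (by omega)
    show (Gr m).Adj _ _
    unfold Gr
    rw [SimpleGraph.fromRel_adj]
    rw [← List.getD_eq_getElem _ 0, ← List.getD_eq_getElem _ 0] at h6
    rw [hv, hv]
    refine ⟨fun h => h6.1 ?_, h6.2⟩
    have := congrArg Fin.val h
    rwa [hv, hv] at this
  · have key : ∀ p q, [p, q] <:+: (l ++ l.take 1) → ∃ j < L,
        (l ++ l.take 1).getD j 0 = p ∧ (l ++ l.take 1).getD (j + 1) 0 = q := by
      rintro p q ⟨s, t, hst⟩
      have hl := congrArg List.length hst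
      rw [hlen] at hl
      simp only [List.length_append, List.length_cons, List.length_nil] at hl
      refine ⟨s.length, by omega, ?_, ?_⟩
      · rw [← hst]
        simp
      · rw [← hst]
        simp
    rcases h5 with h5 | h5
    · obtain ⟨j, hj, h6, h7⟩ := key p q h5
      exact ⟨j, hj, by simp only [h6, h7]⟩
    · obtain ⟨j, hj, h6, h7⟩ := key q p h5
      exact ⟨j, hj, by simp only [h6, h7]; exact Sym2.eq_swap⟩

theorem ofNat_val {m : ℕ} (p : Fin (38 * m + 16)) : Fin.ofNat (38 * m + 16) p.val = p :=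
  Fin.ext (Nat.mod_eq_of_lt p.isLt)

theorem pancyclic (m : ℕ) : EdgePancyclic (Gr m) := by
  constructor
  · refine ⟨s(⟨0, by omega⟩, ⟨2, by omega⟩), ?_⟩
    rw [SimpleGraph.mem_edgeSet, Gr, SimpleGraph.fromRel_adj]
    exact ⟨by simp, Or.inl (Or.inl (Or.inl ⟨(0, 2), by decide +kernel, rfl, rfl⟩))⟩
  · intro e he k hk hk'
    rw [Fintype.card_fin] at hk'
    induction e with
    | _ p q =>
    rw [SimpleGraph.mem_edgeSet, Gr, SimpleGraph.fromRel_adj] at he
    have hn : o m + 9 = 38 * m + 16 := by unfold o; ring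
    rcases he.2 with h | h
    · have := inCycle hk (ladder (hR m) (hK m) (hL m) h hk (by omega))
      rwa [ofNat_val, ofNat_val] at this
    · have := inCycle hk (ladder (hR m) (hK m) (hL m) h hk (by omega))
      rw [ofNat_val, ofNat_val] at this
      rwa [Sym2.eq_swap]

theorem few_edges (m : ℕ) : (Gr m).edgeSet.ncard ≤ 75 * m + 68 := by
  classical
  let g : ℕ → ℕ × ℕ → Sym2 (Fin (38 * m + 16)) := fun t e =>
    s(Fin.ofNat (38 * m + 16) (t + e.1), Fin.ofNat (38 * m + 16) (t + e.2))
  have hsub : (Gr m).edgeSet ⊆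
      (((Finset.range m ×ˢ Finset.range 75 : Finset (ℕ × ℕ)).image fun x =>
          g (o x.1) (EK.getD x.2 (0, 0))) ∪
        (((Finset.range 34).image fun x => g 0 (EC.getD x (0, 0))) ∪
          ((Finset.range 34).image fun x => g (o m) (EC.getD x (0, 0)))) : Finset _) := by
    intro e he
    induction e with
    | _ p q =>
    rw [SimpleGraph.mem_edgeSet, Gr, SimpleGraph.fromRel_adj] at he
    have key : ∀ p q : Fin (38 * m + 16), E m p q → s(p, q) ∈
      (((Finset.range m ×ˢ Finset.range 75 : Finset (ℕ × ℕ)).image fun x =>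
          g (o x.1) (EK.getD x.2 (0, 0))) ∪
        (((Finset.range 34).image fun x => g 0 (EC.getD x (0, 0))) ∪
          ((Finset.range 34).image fun x => g (o m) (EC.getD x (0, 0)))) : Finset _) := by
      intro p q hpq
      rw [Finset.mem_union, Finset.mem_union, Finset.mem_image, Finset.mem_image, Finset.mem_image]
      rcases hpq with (⟨e, he, h1, h2⟩ | ⟨i, hi, e, he, h1, h2⟩) | ⟨e, he, h1, h2⟩
      · obtain ⟨n, hn, rfl⟩ := mem_getD he
        rw [EC_len] at hn
        right; left
        refine ⟨n, Finset.mem_range.2 hn, ?_⟩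
        simp only [g, zero_add]
        rw [← h1, ← h2, ofNat_val, ofNat_val]
      · obtain ⟨n, hn, rfl⟩ := mem_getD he
        rw [EK_len] at hn
        left
        refine ⟨(i, n), by simp [hi, hn], ?_⟩
        simp only [g]
        rw [← h1, ← h2, ofNat_val, ofNat_val]
      · obtain ⟨n, hn, rfl⟩ := mem_getD he
        rw [EC_len] at hn
        right; right
        refine ⟨n, Finset.mem_range.2 hn, ?_⟩
        simp only [g]
        rw [← h1, ← h2, ofNat_val, ofNat_val]
    rw [Finset.mem_coe]
    rcases he.2 with h | h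
    · exact key p q h
    · rw [Sym2.eq_swap]
      exact key q p h
  refine (Set.ncard_le_ncard hsub (Finset.finite_toSet _)).trans ?_
  rw [Set.ncard_coe_finset]
  refine (Finset.card_union_le _ _).trans ?_
  refine (Nat.add_le_add Finset.card_image_le ((Finset.card_union_le _ _).trans
    (Nat.add_le_add Finset.card_image_le Finset.card_image_le))).trans ?_
  rw [Finset.card_product, Finset.card_range, Finset.card_range, Finset.card_range]
  omega

theorem f_le (m : ℕ) : f (38 * m + 16) ≤ 75 * m + 68 := by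
  refine le_trans (Nat.sInf_le ?_) (few_edges m)
  exact ⟨Gr m, pancyclic m, rfl⟩

/-- For every `m` there is an edge-pancyclic graph with `38 m + 16` vertices and at most `75 m + 68` edges. So
the minimum number `f n` of edges satisfies `f n ≤ 75 m + 68` for `n = 38 m + 16`, for every `c > 75 / 38`
(for instance `c = 2 - 1/76`) there are infinitely many `n` for which an edge-pancyclic graph with `n` vertices
has fewer than `c n` edges, it is not true that every edge-pancyclic graph with `n` vertices has at least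
`2 n - o(n)` edges, and `f n / n` does not tend to `2`. -/
theorem result :
    (∀ m : ℕ, ∃ G : SimpleGraph (Fin (38 * m + 16)),
      EdgePancyclic G ∧ G.edgeSet.ncard ≤ 75 * m + 68) ∧
    (∀ m : ℕ, f (38 * m + 16) ≤ 75 * m + 68) ∧
    (∀ c : ℝ, 75 / 38 < c → ∀ n₀ : ℕ, ∃ n ≥ n₀, ∃ G : SimpleGraph (Fin n), EdgePancyclic G ∧
      (G.edgeSet.ncard : ℝ) < c * n) ∧
    ¬ Q1 ∧ ¬ Filter.Tendsto (fun n => (f n : ℝ) / n) Filter.atTop (nhds 2) := by
  have main : ∀ c : ℝ, 75 / 38 < c → ∀ n₀ : ℕ, ∃ n ≥ n₀, ∃ G : SimpleGraph (Fin n),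
      EdgePancyclic G ∧ (G.edgeSet.ncard : ℝ) < c * n := by
    intro c hc n₀
    obtain ⟨M, hM⟩ := exists_nat_gt (68 / (38 * c - 75))
    have hc' : 0 < 38 * c - 75 := by linarith
    rw [div_lt_iff₀ hc'] at hM
    refine ⟨38 * (n₀ + M) + 16, by omega, Gr (n₀ + M), pancyclic _, ?_⟩
    have h : ((Gr (n₀ + M)).edgeSet.ncard : ℝ) ≤ 75 * ((n₀ : ℝ) + M) + 68 := by
      exact_mod_cast few_edges (n₀ + M)
    have h0 : (0 : ℝ) ≤ n₀ := Nat.cast_nonneg _
    have h1 : 0 ≤ (n₀ : ℝ) * (38 * c - 75) := mul_nonneg h0 hc'.le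
    push_cast
    nlinarith
  refine ⟨fun m => ⟨Gr m, pancyclic m, few_edges m⟩, f_le, main, ?_, ?_⟩
  · intro h
    obtain ⟨n₀, h1⟩ := h (1 / 76) (by norm_num)
    obtain ⟨n, hn, G, h2, h3⟩ := main (2 - 1 / 76) (by norm_num) n₀
    have h4 := h1 (Fin n) inferInstance G (by rw [Fintype.card_fin]; exact hn) h2
    rw [Fintype.card_fin] at h4
    linarith
  · intro h
    have h1 := (h.eventually (lt_mem_nhds (show (2 - 1 / 76 : ℝ) < 2 by norm_num)))
    obtain ⟨N, hN⟩ := Filter.eventually_atTop.1 h1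
    have h2 := hN (38 * (N + 80) + 16) (by omega)
    have h3 : ((f (38 * (N + 80) + 16) : ℕ) : ℝ) ≤ 75 * ((N : ℝ) + 80) + 68 := by
      exact_mod_cast f_le (N + 80)
    have h0 : (0 : ℝ) ≤ N := Nat.cast_nonneg _
    rw [lt_div_iff₀ (by positivity)] at h2
    push_cast at h2
    linarith

end Pool.Agent.Results.MP_43a9c1_co.ColumnLadder
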